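import Pool.Agent.Helper26.CL.St

/-!
# Project CM (MP_65faa7), module Un: independence of disjoint edge sets
-/

set_option autoImplicit false

open scoped BigOperators ENNReal Topology
open Pool.LE Pool.NL Filter

namespace Pool.CN

namespace UnM

variable {V : Type} [DecidableEq V]

private theorem un_inter_left {E₁ E₂ ω₁ ω₂ : Finset (Sym2 V)} (hd : Disjoint E₁ E₂)
    (h1 : ω₁ ⊆ E₁) (h2 : ω₂ ⊆ E₂) : (ω₁ ∪ ω₂) ∩ E₁ = ω₁ := by
  ext e
  simp only [Finset.mem_inter, Finset.mem_union]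
  constructor
  · rintro ⟨h | h, he⟩
    · exact h
    · exact absurd (h2 h) (Finset.disjoint_left.1 hd he)
  · intro h
    exact ⟨Or.inl h, h1 h⟩

private theorem un_wt {E₁ E₂ ω₁ ω₂ : Finset (Sym2 V)} (p : ℝ) (hd : Disjoint E₁ E₂)
    (h1 : ω₁ ⊆ E₁) (h2 : ω₂ ⊆ E₂) : wt (E₁ ∪ E₂) p (ω₁ ∪ ω₂) = wt E₁ p ω₁ * wt E₂ p ω₂ := by
  have hω : Disjoint ω₁ ω₂ := Finset.disjoint_of_subset_left h1 (Finset.disjoint_of_subset_right h2 hd)
  have hs : (E₁ ∪ E₂) \ (ω₁ ∪ ω₂) = (E₁ \ ω₁) ∪ (E₂ \ ω₂) := by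
    ext e
    simp only [Finset.mem_sdiff, Finset.mem_union, not_or]
    constructor
    · rintro ⟨h | h, h3, h4⟩
      · exact Or.inl ⟨h, h3⟩
      · exact Or.inr ⟨h, h4⟩
    · rintro (⟨h, h3⟩ | ⟨h, h3⟩)
      · exact ⟨Or.inl h, h3, fun h4 => Finset.disjoint_left.1 hd h (h2 h4)⟩
      · exact ⟨Or.inr h, fun h4 => Finset.disjoint_left.1 hd (h1 h4) h, h3⟩
  have hc : Disjoint (E₁ \ ω₁) (E₂ \ ω₂) :=
    Finset.disjoint_of_subset_left Finset.sdiff_subset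
      (Finset.disjoint_of_subset_right Finset.sdiff_subset hd)
  unfold wt
  rw [hs, Finset.card_union_of_disjoint hω, Finset.card_union_of_disjoint hc, pow_add, pow_add]
  ring

private theorem un_ex (E₁ E₂ : Finset (Sym2 V)) (p : ℝ) (hd : Disjoint E₁ E₂)
    (f : Finset (Sym2 V) → ℝ) :
    ex (E₁ ∪ E₂) p f = ex E₁ p (fun ω₁ => ex E₂ p (fun ω₂ => f (ω₁ ∪ ω₂))) := by
  have hR : ex E₁ p (fun ω₁ => ex E₂ p (fun ω₂ => f (ω₁ ∪ ω₂))) =
      ∑ x ∈ E₁.powerset ×ˢ E₂.powerset, wt E₁ p x.1 * wt E₂ p x.2 * f (x.1 ∪ x.2) := by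
    rw [Finset.sum_product]
    unfold ex Ex
    refine Finset.sum_congr rfl fun a _ => ?_
    rw [smul_eq_mul, Finset.mul_sum]
    refine Finset.sum_congr rfl fun b _ => ?_
    rw [smul_eq_mul]
    ring
  rw [hR]
  unfold ex Ex
  symm
  refine Finset.sum_bij' (fun x _ => x.1 ∪ x.2) (fun ω _ => (ω ∩ E₁, ω ∩ E₂)) ?_ ?_ ?_ ?_ ?_
  · intro x hx
    rw [Finset.mem_product, Finset.mem_powerset, Finset.mem_powerset] at hx
    rw [Finset.mem_powerset]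
    exact Finset.union_subset_union hx.1 hx.2
  · intro ω _
    rw [Finset.mem_product, Finset.mem_powerset, Finset.mem_powerset]
    exact ⟨Finset.inter_subset_right, Finset.inter_subset_right⟩
  · intro x hx
    rw [Finset.mem_product, Finset.mem_powerset, Finset.mem_powerset] at hx
    have e1 : (x.1 ∪ x.2) ∩ E₁ = x.1 := un_inter_left hd hx.1 hx.2
    have e2 : (x.1 ∪ x.2) ∩ E₂ = x.2 := by
      rw [Finset.union_comm]
      exact un_inter_left hd.symm hx.2 hx.1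
    exact Prod.ext e1 e2
  · intro ω hω
    rw [Finset.mem_powerset] at hω
    show ω ∩ E₁ ∪ ω ∩ E₂ = ω
    rw [← Finset.inter_union_distrib_left]
    exact Finset.inter_eq_left.2 hω
  · intro x hx
    rw [Finset.mem_product, Finset.mem_powerset, Finset.mem_powerset] at hx
    rw [un_wt p hd hx.1 hx.2, smul_eq_mul]

private theorem un_mul (E₁ E₂ : Finset (Sym2 V)) (p : ℝ) (hd : Disjoint E₁ E₂)
    (g₁ g₂ : Finset (Sym2 V) → ℝ) :
    ex (E₁ ∪ E₂) p (fun ω => g₁ (ω ∩ E₁) * g₂ (ω ∩ E₂)) = ex E₁ p g₁ * ex E₂ p g₂ := by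
  rw [un_ex E₁ E₂ p hd]
  have key : ∀ a ∈ E₁.powerset,
      ex E₂ p (fun b => g₁ ((a ∪ b) ∩ E₁) * g₂ ((a ∪ b) ∩ E₂)) = g₁ a * ex E₂ p g₂ := by
    intro a ha
    unfold ex Ex
    rw [Finset.mul_sum]
    refine Finset.sum_congr rfl fun b hb => ?_
    rw [Finset.mem_powerset] at ha hb
    have e1 : (a ∪ b) ∩ E₁ = a := un_inter_left hd ha hb
    have e2 : (a ∪ b) ∩ E₂ = b := by
      rw [Finset.union_comm]
      exact un_inter_left hd.symm hb ha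
    show wt E₂ p b • (g₁ ((a ∪ b) ∩ E₁) * g₂ ((a ∪ b) ∩ E₂)) = g₁ a * wt E₂ p b • g₂ b
    rw [e1, e2, smul_eq_mul, smul_eq_mul]
    ring
  have h1 : ex E₁ p (fun a => ex E₂ p (fun b => g₁ ((a ∪ b) ∩ E₁) * g₂ ((a ∪ b) ∩ E₂))) =
      ex E₁ p (fun a => g₁ a * ex E₂ p g₂) := by
    show ∑ ω ∈ E₁.powerset, _ = ∑ ω ∈ E₁.powerset, _
    refine Finset.sum_congr rfl fun a ha => ?_
    exact congrArg (fun t : ℝ => wt E₁ p a • t) (key a ha)
  rw [h1]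
  show ∑ ω ∈ E₁.powerset, wt E₁ p ω • (g₁ ω * ex E₂ p g₂) =
    (∑ ω ∈ E₁.powerset, wt E₁ p ω • g₁ ω) * ex E₂ p g₂
  rw [Finset.sum_mul]
  refine Finset.sum_congr rfl fun a _ => ?_
  rw [smul_eq_mul, smul_eq_mul, mul_assoc]

end UnM

theorem hUn : StUn := by
  intro V _ E₁ E₂ p hd f
  exact ⟨UnM.un_ex E₁ E₂ p hd f, UnM.un_mul E₁ E₂ p hd⟩

end Pool.CN
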